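import Mathlib
import Pool.Agent.H23.PeakExt

set_option autoImplicit false

namespace Pool.Agent.Results.MP_63b2dc_co.ZeroLocation

open Pool.Agent.H23.Peak Pool.Agent.H23.PeakExt Finset Polynomial

/-- The peak set of a permutation `π` of `n` letters, written as the word whose letter at position
`x + 1` is `π x`, for `x : Fin n`: the set of the positions `i` such that the positions `i - 1`, `i`,
`i + 1` all exist and carry letters of which the middle one is the largest. -/
def peakSet {n : ℕ} (π : Equiv.Perm (Fin n)) : Set ℕ :=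
  {i | ∃ a b c : Fin n, a.val + 2 = i ∧ b.val + 1 = i ∧ c.val = i ∧ π a < π b ∧ π c < π b}

/-- The number of permutations of `n` letters whose peak set is `S`. -/
noncomputable def peakCount (S : Finset ℕ) (n : ℕ) : ℕ :=
  Nat.card {π : Equiv.Perm (Fin n) // peakSet π = (S : Set ℕ)}

private lemma peakSet_iff (S : Finset ℕ) (hS : ∀ i ∈ S, 1 ≤ i) (n : ℕ) (π : Equiv.Perm (Fin n))
    (hSn : ∀ i ∈ S, i ≤ n) : peakSet π = (S : Set ℕ) ↔ PkSet S n (toN π) := by
  have key : ∀ j, j < n → (j + 1 ∈ peakSet π ↔ isPk n (toN π) j) := by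
    intro j hj
    unfold peakSet isPk
    simp only [Set.mem_ofPred_eq]
    constructor
    · rintro ⟨a, b, c, h1, h2, h3, h4, h5⟩
      have hc := c.isLt
      have ea : a = ⟨j - 1, by omega⟩ := Fin.ext (by simp; omega)
      have eb : b = ⟨j, hj⟩ := Fin.ext (by simp; omega)
      have ec : c = ⟨j + 1, by omega⟩ := Fin.ext (by simp; omega)
      refine ⟨by omega, by omega, ?_, ?_⟩
      · rw [toN_lt _ _ (by omega), toN_lt _ _ hj, ← ea, ← eb]; exact h4
      · rw [toN_lt _ _ (by omega), toN_lt _ _ hj, ← ec, ← eb]; exact h5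
    · rintro ⟨h1, h2, h3, h4⟩
      rw [toN_lt _ _ (by omega), toN_lt _ _ hj] at h3
      rw [toN_lt _ _ h2, toN_lt _ _ hj] at h4
      exact ⟨⟨j - 1, by omega⟩, ⟨j, hj⟩, ⟨j + 1, h2⟩, by simp; omega, by simp, by simp, h3, h4⟩
  constructor
  · intro h j hj
    rw [← key j hj, h]
    simp
  · intro h
    ext i
    constructor
    · intro hi
      obtain ⟨a, b, c, h1, h2, h3, h4, h5⟩ := hi
      have hb := b.isLt
      have e : i = b.val + 1 := h2.symm
      have h6 : b.val + 1 ∈ peakSet π := ⟨a, b, c, by omega, rfl, by omega, h4, h5⟩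
      have h7 := (h b.val hb).mpr ((key b.val hb).mp h6)
      rw [e]; exact_mod_cast h7
    · intro hi
      have hi' : i ∈ S := by exact_mod_cast hi
      have h1 := hS i hi'
      have h2 := hSn i hi'
      have e : i = (i - 1) + 1 := by omega
      rw [e]
      rw [e] at hi'
      exact (key (i - 1) (by omega)).mpr ((h (i - 1) (by omega)).mp hi')

theorem result (S : Finset ℕ) (hS : S.Nonempty)
    (hadm : ∃ (n : ℕ) (π : Equiv.Perm (Fin n)), peakSet π = (S : Set ℕ)) :
    ∃ p : ℚ[X],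
      (∀ n : ℕ, S.max' hS ≤ n →
        (peakCount S n : ℚ) = p.eval (n : ℚ) * (2 : ℚ) ^ ((n : ℤ) - (S.card : ℤ) - 1)) ∧
      (∀ q : ℚ[X], (∃ N : ℕ, ∀ n : ℕ, N ≤ n →
        (peakCount S n : ℚ) = q.eval (n : ℚ) * (2 : ℚ) ^ ((n : ℤ) - (S.card : ℤ) - 1)) → q = p) ∧
      p.natDegree + 1 = S.max' hS ∧
      ∀ z : ℂ, aeval z p = 0 →
        ‖z‖ ≤ ((S.max' hS : ℕ) : ℝ) ∧ -3 ≤ z.re ∧
          (‖z‖ = ((S.max' hS : ℕ) : ℝ) → z = ((S.max' hS : ℕ) : ℂ)) := by
  have hadm2 : ∀ i ∈ S, 2 ≤ i ∧ i + 1 ∉ S := by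
    obtain ⟨n, π, h⟩ := hadm
    intro i hi
    have hi' : i ∈ peakSet π := by rw [h]; exact_mod_cast hi
    obtain ⟨a, b, c, h1, h2, h3, h4, h5⟩ := hi'
    refine ⟨by omega, fun h' => ?_⟩
    have hi2 : i + 1 ∈ peakSet π := by rw [h]; exact_mod_cast h'
    obtain ⟨a', b', c', k1, k2, k3, k4, k5⟩ := hi2
    have e1 : a' = b := Fin.ext (by omega)
    have e2 : b' = c := Fin.ext (by omega)
    rw [e1, e2] at k4
    exact lt_asymm h5 k4
  obtain ⟨m, v, g, _, hle, h1, hc, hzero, hint, hlead⟩ := exists_all S hadm2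
  have hm : m ∈ S ∧ 1 ≤ m := by
    rcases h1 with ⟨h, _⟩ | h
    · exact absurd hS (by simp [h])
    · exact h
  have hmax : S.max' hS = m := by
    apply le_antisymm
    · exact Finset.max'_le _ _ _ hle
    · exact Finset.le_max' _ _ hm.1
  have hcount : ∀ n, m ≤ n → peakCount S n = NP S n := by
    intro n hn
    unfold peakCount NP
    exact Nat.card_congr (Equiv.subtypeEquivRight (fun π => peakSet_iff S
      (fun i hi => by have := (hadm2 i hi).1; omega) n π (fun i hi => by have := hle i hi; omega)))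
  choose a ha using fun i : ℕ => int_D v hint i 0
  set p : ℚ[X] := ∑ i ∈ range m, C (a i : ℚ) * bcQ i with hp
  have hmap : p.map (algebraMap ℚ ℂ) = PPoly m v := by
    rw [hp, Polynomial.map_sum]
    unfold PPoly
    apply Finset.sum_congr rfl
    intro i _
    rw [Polynomial.map_mul, bcQ_map, map_C, ha i]
    simp
  have hval : ∀ n : ℕ, m ≤ n → ((p.eval (n : ℚ) : ℚ) : ℂ) = (v n : ℂ) := by
    intro n hn
    rw [← P_nat m v g hm.2 n hn, ← PPoly_eval, ← hmap, eval_map, ← aeval_def]
    have := Polynomial.aeval_algebraMap_apply ℂ (n : ℚ) p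
    simp only [coe_aeval_eq_eval] at this
    rw [eq_ratCast, eq_ratCast] at this
    rw [← this]; simp
  have hpow : ∀ n : ℕ, (2 : ℚ) ^ ((n : ℤ) - (S.card : ℤ) - 1) * 2 ^ (S.card + 1) = 2 ^ n := by
    intro n
    rw [← zpow_natCast (2 : ℚ) (S.card + 1), ← zpow_add₀ (by norm_num), ← zpow_natCast]
    congr 1
    push_cast; ring
  have hmain : ∀ n : ℕ, m ≤ n →
      (peakCount S n : ℚ) = p.eval (n : ℚ) * (2 : ℚ) ^ ((n : ℤ) - (S.card : ℤ) - 1) := by
    intro n hn
    have e2 := hc n hn (by omega)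
    have e2C : (NP S n : ℂ) * 2 ^ (S.card + 1) = (v n : ℂ) * 2 ^ n := by
      exact_mod_cast e2
    rw [← hval n hn] at e2C
    have e3 : (NP S n : ℚ) * 2 ^ (S.card + 1) = p.eval (n : ℚ) * 2 ^ n := by
      exact_mod_cast e2C
    rw [hcount n hn]
    have h6 : (2 : ℚ) ^ (S.card + 1) ≠ 0 := by positivity
    apply mul_right_cancel₀ h6
    rw [e3, mul_assoc, hpow n]
  have hdeg : p.natDegree + 1 = m := by
    obtain ⟨d, rfl⟩ : ∃ d, m = d + 1 := ⟨m - 1, by omega⟩
    have hl : (a d : ℚ) ≠ 0 := by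
      have h7 := hlead hS
      simp only [Nat.add_sub_cancel] at h7
      rw [ha d] at h7
      have : (a d : ℤ) ≠ 0 := by
        intro h8; rw [h8] at h7; simp at h7
      exact_mod_cast this
    congr 1
    rw [hp, Finset.sum_range_succ]
    have hlow : (∑ i ∈ range d, C (a i : ℚ) * bcQ i).degree < (d : WithBot ℕ) := by
      rw [← Polynomial.mem_degreeLT]
      apply Submodule.sum_mem
      intro i hi
      have hi' : i < d := by simpa using hi
      rw [Polynomial.mem_degreeLT]
      refine lt_of_le_of_lt degree_le_natDegree ?_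
      have h9 := natDegree_C_mul_le (a i : ℚ) (bcQ i)
      rw [bcQ_natDegree] at h9
      exact_mod_cast lt_of_le_of_lt h9 hi'
    have htop : (C (a d : ℚ) * bcQ d).degree = (d : WithBot ℕ) := by
      rw [degree_C_mul hl]
      have hne : bcQ d ≠ 0 := by
        unfold bcQ
        exact Finset.prod_ne_zero_iff.mpr (fun j _ => bcQ_fac_ne j)
      rw [degree_eq_natDegree hne, bcQ_natDegree]
    have : (∑ i ∈ range d, C (a i : ℚ) * bcQ i + C (a d : ℚ) * bcQ d).degree = (d : WithBot ℕ) := by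
      rw [degree_add_eq_right_of_degree_lt (by rw [htop]; exact hlow), htop]
    exact natDegree_eq_of_degree_eq_some this
  refine ⟨p, ?_, ?_, ?_, ?_⟩
  · intro n hn
    exact hmain n (by rw [← hmax]; exact hn)
  · rintro q ⟨N, hN⟩
    apply Polynomial.eq_of_infinite_eval_eq
    have hinf : (Set.range (fun k : ℕ => ((N + m + k : ℕ) : ℚ))).Infinite := by
      apply Set.infinite_range_of_injective
      intro x y hxy
      have h2 : ((N + m + x : ℕ) : ℚ) = ((N + m + y : ℕ) : ℚ) := hxy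
      have : N + m + x = N + m + y := by exact_mod_cast h2
      omega
    apply hinf.mono
    rintro _ ⟨k, rfl⟩
    show q.eval ((N + m + k : ℕ) : ℚ) = p.eval ((N + m + k : ℕ) : ℚ)
    have e1 := hN (N + m + k) (by omega)
    rw [hmain (N + m + k) (by omega)] at e1
    exact (mul_right_cancel₀ (zpow_ne_zero _ (by norm_num)) e1).symm
  · rw [hmax]; exact hdeg
  · intro z hz
    rw [hmax]
    have hz' : P m v z = 0 := by
      rw [← PPoly_eval, ← hmap, eval_map, ← aeval_def]
      exact hz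
    obtain ⟨h1, h2⟩ := hzero hS z hz'
    refine ⟨?_, h2, ?_⟩
    · by_cases h : z = (m : ℂ)
      · rw [h, Complex.norm_natCast]
      · exact (h1 h).le
    · intro h3
      by_contra h
      exact absurd h3 (h1 h).ne

end Pool.Agent.Results.MP_63b2dc_co.ZeroLocation
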